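import Pool.Agent.H28.VM.Basic

set_option autoImplicit false

open MeasureTheory

namespace Pool.Agent.H28.VM

/-- the numerical inequality behind MULT -/
theorem mult_num {a : ℝ} (ha : 0 < a) (ha1 : a ≤ 1) :
    1 - Real.sin (3 * a / 8) ^ 2 + Real.sinh (a / 8) ^ 2 ≤ 1 - a ^ 2 / 10 := by
  have h1 : 3 * a / 8 - (3 * a / 8) ^ 3 / 6 < Real.sin (3 * a / 8) :=
    Real.sin_gt_sub_cube (by positivity)
  have h2 : 0 ≤ 3 * a / 8 - (3 * a / 8) ^ 3 / 6 := by nlinarith [pow_pos ha 2, pow_pos ha 3]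
  have h3 : (3 * a / 8 - (3 * a / 8) ^ 3 / 6) ^ 2 ≤ Real.sin (3 * a / 8) ^ 2 := by gcongr
  have h4 : Real.sinh (a / 8) ^ 2 ≤ (a / 8) ^ 2 + (a / 8) ^ 4 := by
    have h5 : Real.sinh (a / 8) ^ 2 = Real.cosh (a / 8) ^ 2 - 1 := by
      have := Real.cosh_sq (a / 8); linarith
    have h6 : Real.cosh (a / 8) ^ 2 ≤ Real.exp ((a / 8) ^ 2) := by
      have h7 := Real.cosh_le_exp_half_sq (a / 8)
      calc Real.cosh (a / 8) ^ 2 ≤ (Real.exp ((a / 8) ^ 2 / 2)) ^ 2 := by
            gcongr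
        _ = Real.exp ((a / 8) ^ 2) := by rw [← Real.exp_nat_mul]; congr 1; push_cast; ring
    have h8 : |Real.exp ((a / 8) ^ 2) - 1 - (a / 8) ^ 2| ≤ ((a / 8) ^ 2) ^ 2 := by
      apply Real.abs_exp_sub_one_sub_id_le
      rw [abs_of_nonneg (by positivity)]; nlinarith
    have h9 := (abs_le.mp h8).2
    nlinarith
  have h10 : 3 * a / 8 - (3 * a / 8) ^ 3 / 6 = (3 * a / 8) * (1 - (3 * a / 8) ^ 2 / 6) := by ring
  have h11 : (3 * a / 8) * (1 - 1 / 36) ≤ 3 * a / 8 - (3 * a / 8) ^ 3 / 6 := by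
    rw [h10]
    have : (3 * a / 8) ^ 2 / 6 ≤ 1 / 36 := by nlinarith
    gcongr
  have h12 : ((3 * a / 8) * (1 - 1 / 36)) ^ 2 ≤ Real.sin (3 * a / 8) ^ 2 := by
    refine le_trans ?_ h3
    gcongr
  have h13 : (a / 8) ^ 4 ≤ (a / 8) ^ 2 * (1 / 64) := by
    have : (a / 8) ^ 4 = (a / 8) ^ 2 * (a ^ 2 / 64) := by ring
    rw [this]
    gcongr
    nlinarith
  nlinarith

/-- a real number at distance `≥ b` from `πℤ` has `|sin| ≥ sin b`. -/
theorem sin_sq_ge {x b : ℝ} (hb : 0 ≤ b) (hx : ∀ n : ℤ, b ≤ |x - Real.pi * n|) :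
    Real.sin b ^ 2 ≤ Real.sin x ^ 2 := by
  set n : ℤ := round (x / Real.pi) with hn
  have hpi := Real.pi_pos
  have h1 : |x / Real.pi - n| ≤ 1 / 2 := by rw [hn]; exact abs_sub_round _
  have h2 : |x - Real.pi * n| ≤ Real.pi / 2 := by
    have : x - Real.pi * n = Real.pi * (x / Real.pi - n) := by field_simp
    rw [this, abs_mul, abs_of_pos hpi]
    nlinarith
  have h3 : Real.sin x ^ 2 = Real.sin |x - Real.pi * n| ^ 2 := by
    have h4 : Real.sin (x - Real.pi * n) ^ 2 = Real.sin x ^ 2 := by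
      rw [mul_comm, Real.sin_sub_int_mul_pi, mul_pow, ← zpow_natCast ((-1 : ℝ) ^ n) 2, ← zpow_mul,
        mul_comm n, zpow_mul]
      norm_num
    rcases abs_cases (x - Real.pi * n) with h | h
    · rw [h.1, h4]
    · rw [h.1, Real.sin_neg, neg_sq, h4]
  rw [h3]
  have h5 : Real.sin b ≤ Real.sin |x - Real.pi * n| :=
    Real.sin_le_sin_of_le_of_le_pi_div_two (by linarith) h2 (hx n)
  have h6 : 0 ≤ Real.sin b := Real.sin_nonneg_of_nonneg_of_le_pi hb (by linarith [hx n])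
  gcongr

theorem normSq_cos (x y : ℝ) :
    ‖Complex.cos ((x : ℂ) + y * Complex.I)‖ ^ 2 = 1 - Real.sin x ^ 2 + Real.sinh y ^ 2 := by
  rw [Complex.cos_add_mul_I, ← Complex.normSq_eq_norm_sq, Complex.normSq_apply]
  rw [← Complex.ofReal_cos, ← Complex.ofReal_cosh, ← Complex.ofReal_sin, ← Complex.ofReal_sinh]
  simp only [Complex.sub_re, Complex.mul_re, Complex.ofReal_re, Complex.ofReal_im, mul_zero,
    sub_zero, Complex.I_re, Complex.mul_im, zero_mul, add_zero, Complex.I_im, mul_one,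
    Complex.sub_im, zero_sub]
  have h1 := Real.sin_sq_add_cos_sq x
  have h2 := Real.cosh_sq y
  nlinarith

/-- sup of the multiplier on the complex circle -/
theorem mult_sup {a : ℝ} (ha : 0 < a) (ha1 : a ≤ 1) (J : ℕ) {θ : ℝ}
    (hθ : ∀ n : ℤ, a ≤ |θ - 2 * Real.pi * n|) {s : ℂ} (hs : ‖s‖ ≤ a / 4) :
    ‖Complex.cos (((θ : ℂ) + s) / 2) ^ (2 * J)‖ ≤ Real.exp (-(a ^ 2 * J / 10)) := by
  have hre : |s.re| ≤ a / 4 := (Complex.abs_re_le_norm s).trans hs
  have him : |s.im| ≤ a / 4 := (Complex.abs_im_le_norm s).trans hs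
  have h0 : ((θ : ℂ) + s) / 2 = (((θ + s.re) / 2 : ℝ) : ℂ) + ((s.im / 2 : ℝ) : ℂ) * Complex.I := by
    apply Complex.ext <;> simp
  have h1 : ‖Complex.cos (((θ : ℂ) + s) / 2)‖ ^ 2 ≤ 1 - a ^ 2 / 10 := by
    rw [h0, normSq_cos]
    have h2 : Real.sin (3 * a / 8) ^ 2 ≤ Real.sin ((θ + s.re) / 2) ^ 2 := by
      apply sin_sq_ge (by positivity)
      intro n
      have h3 := hθ n
      have h4 : (θ + s.re) / 2 - Real.pi * n = ((θ - 2 * Real.pi * n) - (-s.re)) / 2 := by ring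
      rw [h4, abs_div, abs_two]
      have h5 := abs_sub_abs_le_abs_sub (θ - 2 * Real.pi * n) (-s.re)
      rw [abs_neg] at h5
      linarith
    have h6 : Real.sinh (s.im / 2) ^ 2 ≤ Real.sinh (a / 8) ^ 2 := by
      rw [sq_le_sq]
      rw [Real.abs_sinh, Real.abs_sinh]
      apply Real.sinh_le_sinh.mpr
      rw [abs_div, abs_two, abs_of_pos (by positivity : 0 < a / 8)]
      linarith
    have := mult_num ha ha1
    linarith
  rw [norm_pow, pow_mul]
  calc (‖Complex.cos (((θ : ℂ) + s) / 2)‖ ^ 2) ^ J ≤ (Real.exp (-(a ^ 2 / 10))) ^ J := by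
        gcongr
        refine h1.trans ?_
        have := Real.add_one_le_exp (-(a ^ 2 / 10))
        linarith
    _ = Real.exp (-(a ^ 2 * J / 10)) := by
        rw [← Real.exp_nat_mul]; congr 1; ring

/-- moments of the window -/
noncomputable def mom (J : ℕ) (θ : ℝ) (j : ℕ) : ℂ :=
  ∑ l ∈ IJ J, (win J l : ℂ) * ee ((l : ℝ) * θ) * (l : ℂ) ^ j

theorem mom_eq (J : ℕ) (θ : ℝ) (j : ℕ) :
    iteratedDeriv j (fun s : ℂ => Complex.cos (((θ : ℂ) + s) / 2) ^ (2 * J)) 0 =
      Complex.I ^ j * mom J θ j := by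
  have h1 : (fun s : ℂ => Complex.cos (((θ : ℂ) + s) / 2) ^ (2 * J)) =
      fun s : ℂ => ∑ l ∈ IJ J, ((win J l : ℂ) * ee ((l : ℝ) * θ)) *
        Complex.exp (((l : ℂ) * Complex.I) * s) := by
    funext s
    rw [← win_gen]
    refine Finset.sum_congr rfl fun l _ => ?_
    unfold ee
    rw [mul_assoc (win J l : ℂ), ← Complex.exp_add]
    congr 2
    push_cast
    ring
  rw [h1, iteratedDeriv_fun_sum]
  · unfold mom
    rw [Finset.mul_sum]
    refine Finset.sum_congr rfl fun l _ => ?_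
    rw [iteratedDeriv_const_mul_field]
    rw [iteratedDeriv_cexp_const_mul]
    simp only [mul_zero, Complex.exp_zero, mul_one]
    rw [mul_pow]; ring
  · intro l _
    apply ContDiff.contDiffAt
    fun_prop

theorem norm_mom_le_triv (J : ℕ) (θ : ℝ) (j : ℕ) : ‖mom J θ j‖ ≤ (J : ℝ) ^ j := by
  unfold mom
  refine (norm_sum_le _ _).trans ?_
  calc ∑ l ∈ IJ J, ‖(win J l : ℂ) * ee ((l : ℝ) * θ) * (l : ℂ) ^ j‖
      ≤ ∑ l ∈ IJ J, win J l * (J : ℝ) ^ j := by
        refine Finset.sum_le_sum fun l hl => ?_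
        rw [norm_mul, norm_mul, norm_ee, mul_one, Complex.norm_real, Real.norm_eq_abs,
          abs_of_nonneg (win_nonneg J l), norm_pow]
        have : ‖(l : ℂ)‖ ≤ J := by
          rw [Complex.norm_intCast]
          rw [mem_IJ'] at hl
          exact_mod_cast hl
        gcongr
        exact win_nonneg J l
    _ = (J : ℝ) ^ j := by rw [← Finset.sum_mul, win_sum, one_mul]

theorem norm_mom_le {a : ℝ} (ha : 0 < a) (ha1 : a ≤ 1) (J : ℕ) {θ : ℝ}
    (hθ : ∀ n : ℤ, a ≤ |θ - 2 * Real.pi * n|) (j : ℕ) :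
    ‖mom J θ j‖ ≤ j.factorial * Real.exp (-(a ^ 2 * J / 10)) / (a / 4) ^ j := by
  have h := mom_eq J θ j
  have h2 : ‖mom J θ j‖ =
      ‖iteratedDeriv j (fun s : ℂ => Complex.cos (((θ : ℂ) + s) / 2) ^ (2 * J)) 0‖ := by
    rw [h, norm_mul, norm_pow, Complex.norm_I, one_pow, one_mul]
  rw [h2]
  apply Complex.norm_iteratedDeriv_le_of_forall_mem_sphere_norm_le j (by positivity)
  · apply Differentiable.diffContOnCl
    fun_prop
  · intro z hz
    apply mult_sup ha ha1 J hθ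
    rw [mem_sphere_zero_iff_norm] at hz
    exact hz.le

theorem mult : T_mult := by
  intro a ha ha1 J hJ E q hE hq θ hθ
  have hJ' : (1 : ℝ) ≤ J := by exact_mod_cast hJ
  have hq0 : 0 ≤ q := (norm_nonneg _).trans (hq 0 (by simp; positivity))
  set S : ℝ := Real.exp (-(a ^ 2 * J / 10)) with hS
  have hS0 : 0 < S := Real.exp_pos _
  -- Taylor coefficients
  set e : ℕ → ℂ := fun j => ((j.factorial : ℂ))⁻¹ * iteratedDeriv j E 0 with he
  have he_bd : ∀ j, ‖e j‖ ≤ q / (2 * J) ^ j := by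
    intro j
    have h1 : ‖iteratedDeriv j E 0‖ ≤ j.factorial * q / (2 * (J : ℝ)) ^ j := by
      apply Complex.norm_iteratedDeriv_le_of_forall_mem_sphere_norm_le j (by positivity)
      · apply DifferentiableOn.diffContOnCl
        apply hE.mono
        refine Metric.closure_ball_subset_closedBall.trans ?_
        apply Metric.closedBall_subset_ball
        linarith
      · intro z hz
        apply hq
        rw [mem_sphere_zero_iff_norm] at hz
        rw [mem_ball_zero_iff, hz]; linarith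
    rw [he]
    simp only
    rw [norm_mul, norm_inv, Complex.norm_natCast]
    have hf : (0 : ℝ) < j.factorial := by exact_mod_cast Nat.factorial_pos j
    rw [inv_mul_le_iff₀ hf]
    rw [← mul_div_assoc]
    exact h1
  have hser : ∀ l ∈ IJ J, HasSum (fun j => e j * (l : ℂ) ^ j) (E l) := by
    intro l hl
    have hl' : (l : ℂ) ∈ Metric.ball (0 : ℂ) (3 * J) := by
      rw [mem_ball_zero_iff, Complex.norm_intCast]
      rw [mem_IJ'] at hl
      have : (|l| : ℝ) ≤ J := by exact_mod_cast hl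
      linarith
    have h3 := Complex.hasSum_taylorSeries_on_ball hE hl'
    have h4 : (fun j => e j * (l : ℂ) ^ j) =
        fun n : ℕ => ((n.factorial : ℂ))⁻¹ • ((l : ℂ) - 0) ^ n • iteratedDeriv n E 0 := by
      funext j
      simp only [he, sub_zero, smul_eq_mul]
      ring
    rw [h4]; exact h3
  have hsum : HasSum (fun j => e j * mom J θ j)
      (∑ l ∈ IJ J, (win J l : ℂ) * E (l : ℂ) * ee ((l : ℝ) * θ)) := by
    have h1 := hasSum_sum (f := fun (l : ℤ) (j : ℕ) =>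
      ((win J l : ℂ) * ee ((l : ℝ) * θ)) * (e j * (l : ℂ) ^ j))
      (a := fun l => ((win J l : ℂ) * ee ((l : ℝ) * θ)) * E l) (s := IJ J)
      (fun l hl => (hser l hl).mul_left _)
    convert h1 using 1
    · funext j
      unfold mom
      rw [Finset.mul_sum]
      refine Finset.sum_congr rfl fun l _ => ?_
      ring
    · refine Finset.sum_congr rfl fun l _ => ?_
      ring
  -- termwise bounds
  have hJ0 : (0 : ℝ) < 2 * J := by linarith
  have hterm1 : ∀ j, ‖e j * mom J θ j‖ ≤ q * (1 / 2) ^ j := by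
    intro j
    rw [norm_mul]
    calc ‖e j‖ * ‖mom J θ j‖ ≤ (q / (2 * J) ^ j) * (J : ℝ) ^ j := by
          gcongr
          · exact he_bd j
          · exact norm_mom_le_triv J θ j
      _ = q * (1 / 2) ^ j := by
          rw [mul_pow, one_div, inv_pow]; field_simp
  have hterm2 : ∀ j : ℕ, (j : ℝ) ≤ a / 4 * J → ‖e j * mom J θ j‖ ≤ q * S * (1 / 2) ^ j := by
    intro j hj
    rw [norm_mul]
    have hf : (j.factorial : ℝ) ≤ (a / 4 * J) ^ j := by
      calc (j.factorial : ℝ) ≤ (j : ℝ) ^ j := by exact_mod_cast Nat.factorial_le_pow j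
        _ ≤ (a / 4 * J) ^ j := by gcongr
    calc ‖e j‖ * ‖mom J θ j‖ ≤ (q / (2 * J) ^ j) * (j.factorial * S / (a / 4) ^ j) := by
          gcongr
          · exact he_bd j
          · exact norm_mom_le ha ha1 J hθ j
      _ ≤ (q / (2 * J) ^ j) * ((a / 4 * J) ^ j * S / (a / 4) ^ j) := by
          gcongr
      _ = q * S * (1 / 2) ^ j := by
          rw [mul_pow, mul_pow, one_div, inv_pow]; field_simp
  set n0 : ℕ := ⌊a / 4 * J⌋₊ + 1 with hn0
  have hgeo : HasSum (fun j : ℕ => ((1 : ℝ) / 2) ^ j) 2 := hasSum_geometric_two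
  have h1 : ‖∑ j ∈ Finset.range n0, e j * mom J θ j‖ ≤ 2 * q * S := by
    calc ‖∑ j ∈ Finset.range n0, e j * mom J θ j‖ ≤ ∑ j ∈ Finset.range n0, q * S * (1 / 2) ^ j := by
          refine (norm_sum_le _ _).trans (Finset.sum_le_sum fun j hj => hterm2 j ?_)
          rw [Finset.mem_range] at hj
          have h2 : j ≤ ⌊a / 4 * (J : ℝ)⌋₊ := by omega
          exact (Nat.le_floor_iff (by positivity)).mp h2
      _ = q * S * ∑ j ∈ Finset.range n0, (1 / 2) ^ j := by rw [Finset.mul_sum]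
      _ ≤ q * S * 2 := by
          gcongr
          exact sum_le_hasSum _ (fun _ _ => by positivity) hgeo
      _ = 2 * q * S := by ring
  have h2 : ‖∑' j, e (j + n0) * mom J θ (j + n0)‖ ≤ q * (1 / 2) ^ n0 * 2 := by
    apply tsum_of_norm_bounded (hgeo.mul_left (q * (1 / 2) ^ n0))
    intro j
    refine (hterm1 (j + n0)).trans (le_of_eq ?_)
    rw [pow_add]; ring
  have h3 : ((1 : ℝ) / 2) ^ n0 ≤ S := by
    have h4 : ((1 : ℝ) / 2) ^ n0 = Real.exp (-(n0 * Real.log 2)) := by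
      rw [one_div, inv_pow, Real.exp_neg, Real.exp_nat_mul, Real.exp_log (by norm_num)]
    rw [h4, hS]
    apply Real.exp_le_exp.mpr
    have h5 : a / 4 * J ≤ n0 := by
      rw [hn0]; push_cast; exact (Nat.lt_floor_add_one _).le
    have h6 := Real.log_two_gt_d9
    have h7 : a / 4 * J * Real.log 2 ≤ n0 * Real.log 2 := by
      gcongr
    have h8 : a / 4 * J * (1 / 2) ≤ a / 4 * J * Real.log 2 := by
      gcongr; linarith
    have h9 : a ^ 2 * J ≤ a * J := by
      have : a ^ 2 ≤ a := by nlinarith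
      gcongr
    nlinarith
  rw [← hsum.tsum_eq, ← hsum.summable.sum_add_tsum_nat_add n0]
  calc ‖∑ j ∈ Finset.range n0, e j * mom J θ j + ∑' j, e (j + n0) * mom J θ (j + n0)‖
      ≤ 2 * q * S + q * (1 / 2) ^ n0 * 2 := (norm_add_le _ _).trans (add_le_add h1 h2)
    _ ≤ 2 * q * S + q * S * 2 := by gcongr
    _ = 4 * q * S := by ring

end Pool.Agent.H28.VM
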