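import Pool.Agent.H75.VM.Mult

set_option autoImplicit false

open MeasureTheory

namespace Pool.Agent.H28.VM

/-- principal square root -/
noncomputable def csq (z : ℂ) : ℂ := Complex.exp (Complex.log z / 2)

theorem csq_sq {z : ℂ} (hz : z ≠ 0) : csq z ^ 2 = z := by
  unfold csq
  rw [← Complex.exp_nat_mul]
  push_cast
  rw [mul_div_cancel₀ _ (by norm_num : (2 : ℂ) ≠ 0), Complex.exp_log hz]

theorem csq_re_nonneg (z : ℂ) : 0 ≤ (csq z).re := by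
  unfold csq
  rw [Complex.exp_re]
  apply mul_nonneg (Real.exp_pos _).le
  have h : (Complex.log z / 2).im = Complex.arg z / 2 := by
    rw [Complex.div_ofNat_im, Complex.log_im]
  rw [h]
  apply Real.cos_nonneg_of_mem_Icc
  constructor
  · have := Complex.neg_pi_lt_arg z; linarith
  · have := Complex.arg_le_pi z; linarith

theorem csq_ofReal {y : ℝ} (hy : 0 < y) : csq (y : ℂ) = ((Real.sqrt y : ℝ) : ℂ) := by
  unfold csq
  rw [← Complex.ofReal_log hy.le]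
  have h : ((Real.log y : ℝ) : ℂ) / 2 = ((Real.log (Real.sqrt y) : ℝ) : ℂ) := by
    rw [Real.log_sqrt hy.le]; push_cast; ring
  rw [h, ← Complex.ofReal_exp, Real.exp_log (Real.sqrt_pos.mpr hy)]

theorem norm_csq_sub_le {x : ℂ} (hx : ‖x‖ < 1) : ‖csq (1 + x) - 1 - x / 2‖ ≤ ‖x‖ ^ 2 / 2 := by
  have hne : (1 : ℂ) + x ≠ 0 := by
    intro h
    have : x = -1 := by linear_combination h
    rw [this, norm_neg, norm_one] at hx
    exact lt_irrefl _ hx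
  set w := csq (1 + x) with hw
  have h1 : w ^ 2 = 1 + x := csq_sq hne
  have h2 : 0 ≤ w.re := csq_re_nonneg _
  have h3 : 1 ≤ ‖w + 1‖ := by
    have : (w + 1).re ≤ ‖w + 1‖ := Complex.re_le_norm _
    simp at this; linarith
  have h4 : w + 1 ≠ 0 := by
    intro h; rw [h, norm_zero] at h3; linarith
  have h5 : w - 1 = x / (w + 1) := by
    field_simp; linear_combination h1
  have h6 : ‖w - 1‖ ≤ ‖x‖ := by
    rw [h5, norm_div]
    exact div_le_self (norm_nonneg _) h3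
  have h7 : w - 1 - x / 2 = x * (1 - w) / (2 * (w + 1)) := by
    have h8 : (w - 1) * (w + 1) = x := by linear_combination h1
    field_simp
    linear_combination 2 * h8
  have h9 : ‖(2 : ℂ)‖ = 2 := by simp
  rw [h7, norm_div, norm_mul, norm_mul, norm_sub_rev 1 w, h9]
  rw [div_le_div_iff₀ (by linarith) (by norm_num)]
  have h10 : ‖x‖ * ‖w - 1‖ ≤ ‖x‖ * ‖x‖ := by gcongr
  nlinarith [norm_nonneg x, mul_nonneg (norm_nonneg x) (norm_nonneg x)]

/-- the quantity `x` -/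
noncomputable def xx (k₁ k₂ m R : ℝ) (z : ℂ) : ℂ :=
  (2 * k₁ * z + 2 * k₂ * m + z ^ 2 + m ^ 2) / R ^ 2

/-- the phase factor -/
noncomputable def EE (k₁ k₂ m R s : ℝ) (z : ℂ) : ℂ :=
  Complex.exp (Complex.I * s * (R * csq (1 + xx k₁ k₂ m R z) - R - (k₁ * z + k₂ * m) / R))

theorem norm_xx_le {k₁ k₂ m R J : ℝ} (hR : 0 < R) (h1 : |k₁| ≤ R) (h2 : |k₂| ≤ R)
    (hm : |m| ≤ J) {z : ℂ} (hz : ‖z‖ ≤ 3 * J) (hJ : 0 ≤ J) (hJR : 100 * J ≤ R) :
    ‖xx k₁ k₂ m R z‖ ≤ 81 / 10 * (J / R) := by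
  unfold xx
  rw [norm_div, norm_pow, Complex.norm_real, Real.norm_eq_abs, abs_of_pos hR,
    div_le_iff₀ (by positivity)]
  have e1 : ‖2 * (k₁ : ℂ) * z‖ ≤ 2 * R * (3 * J) := by
    rw [norm_mul, norm_mul, Complex.norm_real, Real.norm_eq_abs]
    have h9 : ‖(2 : ℂ)‖ = 2 := by simp
    rw [h9]; gcongr
  have e2 : ‖2 * (k₂ : ℂ) * m‖ ≤ 2 * R * J := by
    rw [norm_mul, norm_mul, Complex.norm_real, Real.norm_eq_abs, Complex.norm_real,
      Real.norm_eq_abs]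
    have h9 : ‖(2 : ℂ)‖ = 2 := by simp
    rw [h9]; gcongr
  have e3 : ‖z ^ 2‖ ≤ (3 * J) ^ 2 := by rw [norm_pow]; gcongr
  have e4 : ‖(m : ℂ) ^ 2‖ ≤ J ^ 2 := by
    rw [norm_pow, Complex.norm_real, Real.norm_eq_abs]; gcongr
  have e5 : ‖2 * (k₁ : ℂ) * z + 2 * k₂ * m + z ^ 2 + m ^ 2‖ ≤
      2 * R * (3 * J) + 2 * R * J + (3 * J) ^ 2 + J ^ 2 := by
    refine (norm_add_le _ _).trans (add_le_add ?_ e4)
    refine (norm_add_le _ _).trans (add_le_add ?_ e3)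
    exact (norm_add_le _ _).trans (add_le_add e1 e2)
  refine e5.trans ?_
  have : 81 / 10 * (J / R) * R ^ 2 = 81 / 10 * (J * R) := by field_simp
  rw [this]
  nlinarith

theorem norm_EE_le {k₁ k₂ m R J s T₀ : ℝ} (hR : 0 < R) (h1 : |k₁| ≤ R) (h2 : |k₂| ≤ R)
    (hm : |m| ≤ J) {z : ℂ} (hz : ‖z‖ ≤ 3 * J) (hJ : 0 ≤ J) (hJR : 100 * J ≤ R)
    (hs : |s| ≤ T₀) : ‖EE k₁ k₂ m R s z‖ ≤ Real.exp (T₀ * (40 * (J * (J / R)))) := by
  unfold EE
  refine (Complex.norm_exp_le_exp_norm _).trans (Real.exp_le_exp.mpr ?_)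
  rw [norm_mul, norm_mul, Complex.norm_I, one_mul, Complex.norm_real, Real.norm_eq_abs]
  have hT : 0 ≤ T₀ := (abs_nonneg s).trans hs
  gcongr
  set x := xx k₁ k₂ m R z with hx
  have hxn : ‖x‖ ≤ 81 / 10 * (J / R) := norm_xx_le hR h1 h2 hm hz hJ hJR
  have hJR' : J / R ≤ 1 / 100 := by rw [div_le_iff₀ hR]; linarith
  have hRne : (R : ℂ) ≠ 0 := by exact_mod_cast hR.ne'
  have hid : (R : ℂ) * csq (1 + x) - R - (k₁ * z + k₂ * m) / R =
      R * (csq (1 + x) - 1 - x / 2) + (z ^ 2 + m ^ 2) / (2 * R) := by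
    rw [hx]; unfold xx
    field_simp
    ring
  rw [hid]
  have hc := norm_csq_sub_le (x := x) (by linarith)
  have e3 : ‖z ^ 2‖ ≤ (3 * J) ^ 2 := by rw [norm_pow]; gcongr
  have e4 : ‖(m : ℂ) ^ 2‖ ≤ J ^ 2 := by
    rw [norm_pow, Complex.norm_real, Real.norm_eq_abs]; gcongr
  have e5 : ‖(z ^ 2 + (m : ℂ) ^ 2) / (2 * R)‖ ≤ 5 * (J * (J / R)) := by
    rw [norm_div, norm_mul, Complex.norm_real, Real.norm_eq_abs, abs_of_pos hR]
    have h9 : ‖(2 : ℂ)‖ = 2 := by simp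
    rw [h9, div_le_iff₀ (by positivity)]
    refine (norm_add_le _ _).trans ((add_le_add e3 e4).trans (le_of_eq ?_))
    field_simp
    ring
  have e6 : ‖(R : ℂ) * (csq (1 + x) - 1 - x / 2)‖ ≤ R * ((81 / 10 * (J / R)) ^ 2 / 2) := by
    rw [norm_mul, Complex.norm_real, Real.norm_eq_abs, abs_of_pos hR]
    gcongr
    refine hc.trans ?_
    gcongr
  refine (norm_add_le _ _).trans ((add_le_add e6 e5).trans ?_)
  have e7 : R * ((81 / 10 * (J / R)) ^ 2 / 2) = 6561 / 200 * (J * (J / R)) := by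
    field_simp
    ring
  rw [e7]
  have : 0 ≤ J * (J / R) := by positivity
  linarith

theorem diff_EE {k₁ k₂ m R J s : ℝ} (hR : 0 < R) (h1 : |k₁| ≤ R) (h2 : |k₂| ≤ R)
    (hm : |m| ≤ J) (hJ : 0 ≤ J) (hJR : 100 * J ≤ R) :
    DifferentiableOn ℂ (EE k₁ k₂ m R s) (Metric.ball 0 (3 * J)) := by
  intro z hz
  rw [mem_ball_zero_iff] at hz
  have hxn : ‖xx k₁ k₂ m R z‖ ≤ 81 / 10 * (J / R) := norm_xx_le hR h1 h2 hm hz.le hJ hJR
  have hJR' : J / R ≤ 1 / 100 := by rw [div_le_iff₀ hR]; linarith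
  have hslit : 1 + xx k₁ k₂ m R z ∈ Complex.slitPlane := by
    apply Complex.mem_slitPlane_of_norm_lt_one; linarith
  apply DifferentiableAt.differentiableWithinAt
  unfold EE csq
  apply DifferentiableAt.cexp
  have hx : DifferentiableAt ℂ (fun z => xx k₁ k₂ m R z) z := by
    unfold xx; fun_prop
  have hlog : DifferentiableAt ℂ (fun z => Complex.log (1 + xx k₁ k₂ m R z)) z :=
    (hx.const_add 1).clog hslit
  fun_prop

theorem EE_int {k₁ k₂ m R J s : ℝ} (hR : 0 < R) (hRsq : R ^ 2 = k₁ ^ 2 + k₂ ^ 2)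
    (h1 : |k₁| ≤ R) (h2 : |k₂| ≤ R)
    (hm : |m| ≤ J) (hJ : 0 ≤ J) (hJR : 100 * J ≤ R) (l : ℝ) (hl : |l| ≤ J) :
    EE k₁ k₂ m R s (l : ℂ) =
      ee (s * (Real.sqrt ((k₁ + l) ^ 2 + (k₂ + m) ^ 2) - R - (k₁ * l + k₂ * m) / R)) := by
  have hxn : ‖xx k₁ k₂ m R l‖ ≤ 81 / 10 * (J / R) :=
    norm_xx_le hR h1 h2 hm (by rw [Complex.norm_real, Real.norm_eq_abs]; linarith) hJ hJR
  have hJR' : J / R ≤ 1 / 100 := by rw [div_le_iff₀ hR]; linarith
  set y : ℝ := (2 * k₁ * l + 2 * k₂ * m + l ^ 2 + m ^ 2) / R ^ 2 with hy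
  have hxy : xx k₁ k₂ m R (l : ℂ) = (y : ℂ) := by
    unfold xx; rw [hy]; push_cast; ring
  rw [hxy, Complex.norm_real, Real.norm_eq_abs] at hxn
  have hy1 : 0 < 1 + y := by
    have := (abs_le.mp hxn).1; linarith
  have hc : csq (1 + (y : ℂ)) = ((Real.sqrt (1 + y) : ℝ) : ℂ) := by
    rw [← csq_ofReal hy1]; push_cast; ring_nf
  have hs : R * Real.sqrt (1 + y) = Real.sqrt ((k₁ + l) ^ 2 + (k₂ + m) ^ 2) := by
    have h3 : (k₁ + l) ^ 2 + (k₂ + m) ^ 2 = R ^ 2 * (1 + y) := by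
      rw [hy]; field_simp; rw [hRsq]; ring
    rw [h3, Real.sqrt_mul (by positivity), Real.sqrt_sq hR.le]
  unfold EE ee
  rw [hxy, hc, ← hs]
  congr 1
  push_cast
  ring

theorem pack_core {T₀ a : ℝ} (ha : 0 < a) (ha1 : a ≤ 1) {J : ℕ} (hJ : 1 ≤ J)
    {k₁ k₂ m : ℤ} {R : ℝ} (hRdef : R = Real.sqrt ((k₁ : ℝ) ^ 2 + (k₂ : ℝ) ^ 2))
    (hJR : 100 * (J : ℝ) ≤ R) (hJR2 : 800 * T₀ / a ^ 2 * J ≤ R) (hm : |(m : ℝ)| ≤ J)
    {s : ℝ} (hs : |s| ≤ T₀) {θ : ℝ} (hθ : ∀ n : ℤ, a ≤ |θ - 2 * Real.pi * n|) :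
    ‖∑ l ∈ IJ J, (win J l : ℂ) * ee ((l : ℝ) * θ +
      s * (Real.sqrt (((k₁ : ℝ) + l) ^ 2 + ((k₂ : ℝ) + m) ^ 2) - R -
        ((k₁ : ℝ) * l + (k₂ : ℝ) * m) / R))‖ ≤ 4 * Real.exp (-(a ^ 2 * J / 20)) := by
  have hJ' : (1 : ℝ) ≤ J := by exact_mod_cast hJ
  have hR : 0 < R := by linarith
  have hRsq : R ^ 2 = (k₁ : ℝ) ^ 2 + (k₂ : ℝ) ^ 2 := by
    rw [hRdef, Real.sq_sqrt (by positivity)]
  have h1 : |(k₁ : ℝ)| ≤ R := by
    apply abs_le_of_sq_le_sq _ hR.le; rw [hRsq]; nlinarith [sq_nonneg (k₂ : ℝ)]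
  have h2 : |(k₂ : ℝ)| ≤ R := by
    apply abs_le_of_sq_le_sq _ hR.le; rw [hRsq]; nlinarith [sq_nonneg (k₁ : ℝ)]
  have hT : 0 ≤ T₀ := (abs_nonneg s).trans hs
  have hE := diff_EE (s := s) hR h1 h2 hm (by linarith : (0 : ℝ) ≤ J) hJR
  have hq : ∀ z ∈ Metric.ball (0 : ℂ) (3 * J), ‖EE k₁ k₂ m R s z‖ ≤ Real.exp (a ^ 2 * J / 20) := by
    intro z hz
    rw [mem_ball_zero_iff] at hz
    refine (norm_EE_le hR h1 h2 hm hz.le (by linarith : (0 : ℝ) ≤ J) hJR hs).trans ?_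
    apply Real.exp_le_exp.mpr
    have h3 : T₀ * (40 * ((J : ℝ) * (J / R))) = 40 * T₀ * J * J / R := by ring
    rw [h3, div_le_iff₀ hR]
    have h4 : 800 * T₀ * J ≤ R * a ^ 2 := by
      have h5 : 800 * T₀ / a ^ 2 * J * a ^ 2 ≤ R * a ^ 2 := by gcongr
      have h6 : 800 * T₀ / a ^ 2 * J * a ^ 2 = 800 * T₀ * J := by field_simp
      linarith
    have h7 : 800 * T₀ * J * J ≤ R * a ^ 2 * J := by gcongr
    nlinarith
  have := mult a ha ha1 J hJ (EE k₁ k₂ m R s) _ hE hq θ hθ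
  have h8 : ∑ l ∈ IJ J, (win J l : ℂ) * ee ((l : ℝ) * θ +
      s * (Real.sqrt (((k₁ : ℝ) + l) ^ 2 + ((k₂ : ℝ) + m) ^ 2) - R -
        ((k₁ : ℝ) * l + (k₂ : ℝ) * m) / R)) =
      ∑ l ∈ IJ J, (win J l : ℂ) * EE k₁ k₂ m R s (l : ℂ) * ee ((l : ℝ) * θ) := by
    refine Finset.sum_congr rfl fun l hl => ?_
    have hl' : |(l : ℝ)| ≤ J := by
      rw [mem_IJ'] at hl; exact_mod_cast hl
    have h9 := EE_int (s := s) hR hRsq h1 h2 hm (by linarith : (0 : ℝ) ≤ J) hJR (l : ℝ) hl'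
    push_cast at h9
    rw [h9, ee_add]; ring
  rw [h8]
  refine this.trans (le_of_eq ?_)
  rw [mul_assoc, ← Real.exp_add]
  congr 2
  ring

theorem packet : T_packet := by
  intro T₀ hT₀ a ha ha1
  refine ⟨max 100 ⌈800 * T₀ / a ^ 2⌉₊, by simp, ?_⟩
  intro J hJ k hk s hs θ hθ
  have hJ' : (1 : ℝ) ≤ J := by exact_mod_cast hJ
  push_cast at hk
  have hJR : 100 * (J : ℝ) ≤ nm k := by
    refine le_trans ?_ hk; gcongr; exact le_max_left _ _
  have hJR2 : 800 * T₀ / a ^ 2 * J ≤ nm k := by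
    refine le_trans ?_ hk; gcongr; exact (Nat.le_ceil _).trans (le_max_right _ _)
  have hIJ : ∀ l ∈ IJ J, |(l : ℝ)| ≤ J := by
    intro l hl; rw [mem_IJ'] at hl; exact_mod_cast hl
  rcases hθ with hθ | hθ
  · rw [Finset.sum_product_right]
    calc _ = ‖∑ m ∈ IJ J, ((win J m : ℂ) * ee ((m : ℝ) * θ.2)) *
            ∑ l ∈ IJ J, (win J l : ℂ) * ee ((l : ℝ) * θ.1 +
              s * (Real.sqrt (((k.1 : ℝ) + l) ^ 2 + ((k.2 : ℝ) + m) ^ 2) - nm k -
                ((k.1 : ℝ) * l + (k.2 : ℝ) * m) / nm k))‖ := by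
          congr 1
          refine Finset.sum_congr rfl fun m _ => ?_
          rw [Finset.mul_sum]
          refine Finset.sum_congr rfl fun l _ => ?_
          have e1 : nm (k + (l, m)) = Real.sqrt (((k.1 : ℝ) + l) ^ 2 + ((k.2 : ℝ) + m) ^ 2) := by
            unfold nm; simp
          rw [e1]
          have e2 : dt (l, m) θ + s * (Real.sqrt (((k.1 : ℝ) + l) ^ 2 + ((k.2 : ℝ) + m) ^ 2) - nm k -
                ((k.1 : ℝ) * l + (k.2 : ℝ) * m) / nm k) =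
              (m : ℝ) * θ.2 + ((l : ℝ) * θ.1 +
              s * (Real.sqrt (((k.1 : ℝ) + l) ^ 2 + ((k.2 : ℝ) + m) ^ 2) - nm k -
                ((k.1 : ℝ) * l + (k.2 : ℝ) * m) / nm k)) := by
            unfold dt; simp only; ring
          simp only
          rw [e2, ee_add]
          push_cast
          ring
      _ ≤ ∑ m ∈ IJ J, win J m * (4 * Real.exp (-(a ^ 2 * J / 20))) := by
          refine (norm_sum_le _ _).trans (Finset.sum_le_sum fun m hm => ?_)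
          rw [norm_mul, norm_mul, norm_ee, mul_one, Complex.norm_real, Real.norm_eq_abs,
            abs_of_nonneg (win_nonneg J m)]
          gcongr
          · exact win_nonneg J m
          · exact pack_core ha ha1 hJ rfl hJR hJR2 (hIJ m hm) hs hθ
      _ = _ := by rw [← Finset.sum_mul, win_sum, one_mul]
  · rw [Finset.sum_product]
    calc _ = ‖∑ m ∈ IJ J, ((win J m : ℂ) * ee ((m : ℝ) * θ.1)) *
            ∑ l ∈ IJ J, (win J l : ℂ) * ee ((l : ℝ) * θ.2 +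
              s * (Real.sqrt (((k.2 : ℝ) + l) ^ 2 + ((k.1 : ℝ) + m) ^ 2) - nm k -
                ((k.2 : ℝ) * l + (k.1 : ℝ) * m) / nm k))‖ := by
          congr 1
          refine Finset.sum_congr rfl fun m _ => ?_
          rw [Finset.mul_sum]
          refine Finset.sum_congr rfl fun l _ => ?_
          have e1 : nm (k + (m, l)) = Real.sqrt (((k.2 : ℝ) + l) ^ 2 + ((k.1 : ℝ) + m) ^ 2) := by
            unfold nm; simp [add_comm]
          rw [e1]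
          have e2 : dt (m, l) θ + s * (Real.sqrt (((k.2 : ℝ) + l) ^ 2 + ((k.1 : ℝ) + m) ^ 2) - nm k -
                ((k.1 : ℝ) * m + (k.2 : ℝ) * l) / nm k) =
              (m : ℝ) * θ.1 + ((l : ℝ) * θ.2 +
              s * (Real.sqrt (((k.2 : ℝ) + l) ^ 2 + ((k.1 : ℝ) + m) ^ 2) - nm k -
                ((k.2 : ℝ) * l + (k.1 : ℝ) * m) / nm k)) := by
            unfold dt; simp only; ring
          simp only
          rw [e2, ee_add]
          push_cast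
          ring
      _ ≤ ∑ m ∈ IJ J, win J m * (4 * Real.exp (-(a ^ 2 * J / 20))) := by
          refine (norm_sum_le _ _).trans (Finset.sum_le_sum fun m hm => ?_)
          rw [norm_mul, norm_mul, norm_ee, mul_one, Complex.norm_real, Real.norm_eq_abs,
            abs_of_nonneg (win_nonneg J m)]
          have hR2 : nm k = Real.sqrt ((k.2 : ℝ) ^ 2 + (k.1 : ℝ) ^ 2) := by
            unfold nm; rw [add_comm]
          gcongr
          · exact win_nonneg J m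
          · exact pack_core ha ha1 hJ hR2 hJR hJR2 (hIJ m hm) hs hθ
      _ = _ := by rw [← Finset.sum_mul, win_sum, one_mul]

end Pool.Agent.H28.VM
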